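import Pool.Agent.L7h94.GP.Main
import Pool.Agent.Y163.TateB

/-!
# The Riemann hypothesis for products
-/

set_option linter.unusedVariables false
set_option linter.unusedSectionVars false
set_option autoImplicit false

open CategoryTheory AlgebraicGeometry CategoryTheory.Limits

universe u v

namespace Pool.Agent.L7h94.RH

open Pool.Agent.L7h94.GP Pool.Agent.H914 Pool.Agent.H447 Pool.Agent.W534 Pool.Agent.Y163
  Pool.Agent.R940 VarClass Obj WeilCohomology Module

variable {k : Type u} [Field k] {𝒱 : VarClass k} {ops : CycleOps 𝒱}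
  {W : WeilCohomology.{u, v} ops} {X Y Z : 𝒱.Obj} {p : ℕ} [hp : Fact p.Prime] {Φ : FrobSystem W p}
  {σ : W.K →+* ℂ}

/-- The absolute values of the eigenvalues of the letters. -/
lemma norm_letter {ι : Type v} {B : HBasis W X ι} {lam : ι → W.K} (hB : IsEig Φ B lam)
    (hX : RiemannHyp Φ σ X) (l : ι) : ‖σ (lam l)‖ ^ 2 = ((p : ℝ) ^ Φ.e X) ^ B.deg l := by
  have h1 := hX 1 one_pos (B.deg l) (σ (lam l)) (by
    rw [frobPoly_eq]
    exact (root_charpoly hB l).map)
  rw [h1, card]
  push_cast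
  rw [mul_one]

/-- A root of the Frobenius polynomial is the image of an eigenvalue. -/
lemma exists_root [IsAlgClosed W.K] {s i : ℕ} {μ : ℂ} (hμ : (frobPoly Φ σ Z s i).IsRoot μ) :
    ∃ y : W.K, σ y = μ ∧ (frobOn Φ Z s i).charpoly.IsRoot y := by
  have hne : (frobOn Φ Z s i).charpoly ≠ 0 := (LinearMap.charpoly_monic _).ne_zero
  have hsp := IsAlgClosed.splits (frobOn Φ Z s i).charpoly
  rw [frobPoly_eq] at hμ
  have h1 : μ ∈ ((frobOn Φ Z s i).charpoly.map σ).roots :=
    (Polynomial.mem_roots ((LinearMap.charpoly_monic _).map σ).ne_zero).2 hμ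
  rw [hsp.roots_map] at h1
  obtain ⟨y, hy, rfl⟩ := Multiset.mem_map.1 h1
  exact ⟨y, rfl, (Polynomial.mem_roots hne).1 hy⟩

/-- **The Riemann hypothesis for a product.** -/
theorem prod [IsAlgClosed W.K] (hX : RiemannHyp Φ σ X) (hY : RiemannHyp Φ σ Y) :
    RiemannHyp Φ σ (X.prod Y) := by
  classical
  obtain ⟨ι, hfin, B, lam, hB⟩ := exists_ebasis Φ X
  obtain ⟨κ, hfin', C, mu, hC⟩ := exists_ebasis Φ Y
  obtain ⟨a, b, ha, hb, hab, h1⟩ := frob_comm (W := W) Φ (fst X Y)
  obtain ⟨a', b', ha', hb', hab', h2⟩ := frob_comm (W := W) Φ (snd X Y)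
  intro s hs d μ hμ
  obtain ⟨y, rfl, hy⟩ := exists_root hμ
  rw [← Module.End.hasEigenvalue_iff_isRoot_charpoly] at hy
  obtain ⟨v, hv⟩ := hy.exists_hasEigenvector
  have hv1 : (frobOn Φ (X.prod Y) s d) v = y • v := hv.apply_eq_smul
  set x : W.H (X.prod Y) := (v : W.H (X.prod Y)) with hx
  have hx0 : x ≠ 0 := fun h => hv.2 (Subtype.ext h)
  have hx1 : frob Φ (X.prod Y) s x = y • x := congrArg Subtype.val hv1
  have hxg : x ∈ (frob Φ (X.prod Y) s).maxGenEigenspace y := by
    rw [Module.End.mem_maxGenEigenspace]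
    refine ⟨1, ?_⟩
    rw [pow_one, LinearMap.sub_apply, LinearMap.smul_apply, Module.End.one_apply, hx1, sub_self]
  have hx2 : x ∈ (frob Φ (X.prod Y) (s * (a * a'))).maxGenEigenspace (y ^ (a * a')) := by
    rw [frob_mul_eq]
    exact gen_mono _ _ _ hxg
  -- the basis
  let bs : Basis (ι × κ) W.K (W.H (X.prod Y)) := (B.b.tensorProduct C.b).map (kappa W X Y)
  have hbs : ∀ i, bs i = W.map (fst X Y) (B.b i.1) * W.map (snd X Y) (C.b i.2) := by
    intro i
    rw [Basis.map_apply, Basis.tensorProduct_apply', kappa_tmul]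
  have hgr : ∀ i, bs i ∈ W.gr (X.prod Y) (B.deg i.1 + C.deg i.2) := by
    intro i
    rw [hbs]
    exact W.mul_mem (W.map_mem _ (B.mem _)) (W.map_mem _ (C.mem _))
  have hgen : ∀ i, bs i ∈ (frob Φ (X.prod Y) (s * (a * a'))).maxGenEigenspace
      (lam i.1 ^ (b * a' * s) * mu i.2 ^ (b' * a * s)) := by
    intro i
    rw [hbs]
    refine gen_bilin (β := LinearMap.mul W.K (W.H (X.prod Y)))
      (fun u w => (frob_mul' Φ (s * (a * a')) u w).symm) ?_ ?_
    · refine gen_semi (f := frob Φ X (b * a' * s)) (θ := (W.map (fst X Y)).toLinearMap)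
        (fun u => ?_) ?_
      · have h3 := h1 (a' * s) u
        rw [show a * (a' * s) = s * (a * a') by ring, show b * (a' * s) = b * a' * s by ring] at h3
        exact h3
      · have h3 := gen_mono (frob Φ X 1) (lam i.1) (b * a' * s) (hB i.1)
        rwa [← frob_mul_eq, one_mul] at h3
    · refine gen_semi (f := frob Φ Y (b' * a * s)) (θ := (W.map (snd X Y)).toLinearMap)
        (fun u => ?_) ?_
      · have h3 := h2 (a * s) u
        rw [show a' * (a * s) = s * (a * a') by ring, show b' * (a * s) = b' * a * s by ring] at h3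
        exact h3
      · have h3 := gen_mono (frob Φ Y 1) (mu i.2) (b' * a * s) (hC i.2)
        rwa [← frob_mul_eq, one_mul] at h3
  obtain ⟨i, hi⟩ : ∃ i, bs.repr x i ≠ 0 := by
    by_contra hcon
    push Not at hcon
    apply hx0
    rw [← bs.repr.map_eq_zero_iff]
    exact Finsupp.ext hcon
  have hdeg : B.deg i.1 + C.deg i.2 = d := by
    by_contra hne
    exact hi (repr_zero (W.isInternal (X.prod Y)).submodule_iSupIndep bs
      (fun i => B.deg i.1 + C.deg i.2) hgr v.2 hne)
  have heig : lam i.1 ^ (b * a' * s) * mu i.2 ^ (b' * a * s) = y ^ (a * a') := by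
    by_contra hne
    exact hi (repr_zero (Module.End.independent_maxGenEigenspace
      (frob Φ (X.prod Y) (s * (a * a')))) bs
      (fun i => lam i.1 ^ (b * a' * s) * mu i.2 ^ (b' * a * s)) hgen hx2 hne)
  -- absolute values
  have e1 := norm_letter hB hX i.1
  have e2 := norm_letter hC hY i.2
  have e3 : ‖σ y‖ ^ (a * a') = ‖σ (lam i.1)‖ ^ (b * a' * s) * ‖σ (mu i.2)‖ ^ (b' * a * s) := by
    rw [← norm_pow, ← map_pow, ← heig, map_mul, map_pow, map_pow, norm_mul, norm_pow, norm_pow]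
  have e4 : (‖σ y‖ ^ 2) ^ (a * a') = ((card Φ (X.prod Y) s : ℝ) ^ d) ^ (a * a') := by
    calc (‖σ y‖ ^ 2) ^ (a * a') = (‖σ y‖ ^ (a * a')) ^ 2 := by ring
      _ = (‖σ (lam i.1)‖ ^ 2) ^ (b * a' * s) * (‖σ (mu i.2)‖ ^ 2) ^ (b' * a * s) := by
          rw [e3]; ring
      _ = (p : ℝ) ^ (Φ.e X * B.deg i.1 * (b * a' * s) + Φ.e Y * C.deg i.2 * (b' * a * s)) := by
          rw [e1, e2, pow_add]
          simp only [← pow_mul]
      _ = (p : ℝ) ^ (Φ.e (X.prod Y) * s * d * (a * a')) := by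
          congr 1
          rw [← hdeg]
          calc Φ.e X * B.deg i.1 * (b * a' * s) + Φ.e Y * C.deg i.2 * (b' * a * s)
              = (b * Φ.e X) * (B.deg i.1 * a' * s) + (b' * Φ.e Y) * (C.deg i.2 * a * s) := by ring
            _ = _ := by rw [← hab, ← hab']; ring
      _ = ((card Φ (X.prod Y) s : ℝ) ^ d) ^ (a * a') := by
          rw [card]
          push_cast
          simp only [← pow_mul]
  exact (pow_left_inj₀ (by positivity) (by positivity) (Nat.mul_pos ha ha').ne').1 e4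

end Pool.Agent.L7h94.RH
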